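import Pool.Agent.Lib_helper34.TSS.B

/-!
MP_fada92_co, Q1, for packings without steep contacts. Let `e` be a unit vector. The ball whose centre
is lowest in the direction of `e` is seen from above: the projections of two neighbours whose heights
above it are at most `s` make an angle whose cosine is at most `r / √(4 r² - s²)`. So it has few such
neighbours, and the graph of the contacts of height at most `s` can be coloured greedily.
-/

set_option autoImplicit false

namespace Pool.Agent.Results.MP_fada92_co.FlatContacts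

open Metric Pool.Agent.Results.MP_fada92_co.ThinSlabs

/-- Points on a circle with mutual angles of more than `2 π / m`. -/
theorem card_lt {ι : Type} (t : Finset ι) (z : ι → ℂ) (m : ℕ) (hm : 3 ≤ m)
    (hz : ∀ i ∈ t, z i ≠ 0)
    (hc : ∀ i ∈ t, ∀ j ∈ t, i ≠ j →
      (z i).re * (z j).re + (z i).im * (z j).im < Real.cos (2 * Real.pi / m) * (‖z i‖ * ‖z j‖)) :
    t.card + 1 ≤ m := by
  classical
  have hm0 : (3 : ℝ) ≤ m := by exact_mod_cast hm
  have hpi := Real.pi_pos
  rcases t.eq_empty_or_nonempty with ht | ⟨o, ho⟩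
  · rw [ht, Finset.card_empty]
    omega
  obtain ⟨d, hd⟩ : ∃ d, d = 2 * Real.pi / m := ⟨_, rfl⟩
  have hd0 : 0 < d := by rw [hd]; positivity
  have hdm : d * m = 2 * Real.pi := by rw [hd]; field_simp
  have hdpi : d ≤ Real.pi := by nlinarith
  rw [← hd] at hc
  have hcos : ∀ i ∈ t, ∀ j ∈ t, i ≠ j → Real.cos ((z i).arg - (z j).arg) < Real.cos d := by
    intro i hi j hj hij
    have h1 := hc i hi j hj hij
    have hi0 := hz i hi
    have hj0 := hz j hj
    have c5 : Real.cos ((z i).arg - (z j).arg) * (‖z i‖ * ‖z j‖) =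
        (z i).re * (z j).re + (z i).im * (z j).im := by
      rw [Real.cos_sub, Complex.cos_arg hi0, Complex.cos_arg hj0, Complex.sin_arg, Complex.sin_arg]
      have h5 := (norm_pos_iff.2 hi0).ne'
      have h6 := (norm_pos_iff.2 hj0).ne'
      field_simp
    rw [← c5] at h1
    exact lt_of_mul_lt_mul_right h1 (by positivity)
  -- the angle, counted from the one of `o`
  let ψ : ι → ℝ := fun i => if (z i).arg - (z o).arg < 0 then (z i).arg - (z o).arg + 2 * Real.pi
    else (z i).arg - (z o).arg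
  have hψcos : ∀ i j, Real.cos (ψ i - ψ j) = Real.cos ((z i).arg - (z j).arg) := by
    intro i j
    simp only [ψ]
    split_ifs
    · congr 1; ring
    · rw [← Real.cos_sub_two_pi]; congr 1; ring
    · rw [← Real.cos_add_two_pi]; congr 1; ring
    · congr 1; ring
  have hψ0 : ∀ i, 0 ≤ ψ i ∧ ψ i < 2 * Real.pi := by
    intro i
    have h1 := Complex.neg_pi_lt_arg (z i)
    have h2 := Complex.arg_le_pi (z i)
    have h3 := Complex.neg_pi_lt_arg (z o)
    have h4 := Complex.arg_le_pi (z o)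
    simp only [ψ]
    split_ifs with h
    · constructor <;> linarith
    · constructor <;> linarith
  have hψo : ψ o = 0 := by simp [ψ]
  have hrange : ∀ i ∈ t.erase o, d < ψ i ∧ ψ i < 2 * Real.pi - d := by
    intro i hi
    obtain ⟨hne, hit⟩ := Finset.mem_erase.1 hi
    have h1 := hcos i hit o ho hne
    rw [← hψcos, hψo, sub_zero] at h1
    constructor
    · by_contra hcon
      push Not at hcon
      have := Real.cos_le_cos_of_nonneg_of_le_pi (hψ0 i).1 hdpi hcon
      linarith
    · by_contra hcon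
      push Not at hcon
      have h2 := Real.cos_le_cos_of_nonneg_of_le_pi (x := 2 * Real.pi - ψ i) (y := d)
        (by linarith [(hψ0 i).2]) hdpi (by linarith)
      rw [Real.cos_two_pi_sub] at h2
      linarith
  let F : ι → ℤ := fun i => ⌈ψ i / d⌉
  have hF : ∀ i ∈ t.erase o, F i ∈ Finset.Icc (2 : ℤ) (m - 1) := by
    intro i hi
    obtain ⟨h1, h2⟩ := hrange i hi
    rw [Finset.mem_Icc]
    constructor
    · have : 1 < F i := by
        refine Int.lt_ceil.2 ?_
        rw [lt_div_iff₀ hd0]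
        push_cast
        linarith
      omega
    · refine Int.ceil_le.2 ?_
      rw [div_le_iff₀ hd0]
      push_cast
      nlinarith
  have hinj : Set.InjOn F (t.erase o : Finset ι) := by
    intro i hi j hj hij
    by_contra hne
    have h1 := hcos i (Finset.mem_of_mem_erase hi) j (Finset.mem_of_mem_erase hj) hne
    rw [← hψcos] at h1
    have a1 := Int.ceil_lt_add_one (ψ i / d)
    have a2 := Int.le_ceil (ψ i / d)
    have b1 := Int.ceil_lt_add_one (ψ j / d)
    have b2 := Int.le_ceil (ψ j / d)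
    have e1 : (⌈ψ i / d⌉ : ℝ) = ⌈ψ j / d⌉ := by
      have : F i = F j := hij
      simp only [F] at this
      rw [this]
    have c1 : |ψ i / d - ψ j / d| < 1 := by
      rw [abs_lt]
      constructor <;> linarith
    have c2 : |ψ i - ψ j| < d := by
      have : ψ i / d - ψ j / d = (ψ i - ψ j) / d := by ring
      rw [this, abs_div, abs_of_pos hd0, div_lt_one hd0] at c1
      exact c1
    have c4 : Real.cos d < Real.cos (ψ i - ψ j) := by
      rw [← Real.cos_abs (ψ i - ψ j)]
      exact Real.cos_lt_cos_of_nonneg_of_le_pi (abs_nonneg _) hdpi c2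
    linarith
  have h2 := Finset.card_le_card_of_injOn F hF hinj
  rw [Int.card_Icc, Finset.card_erase_of_mem ho] at h2
  have h3 : 0 < t.card := Finset.card_pos.2 ⟨o, ho⟩
  omega

/-- The lowest ball. -/
theorem flat {ι : Type} [Finite ι] {c : ι → E3} {r s : ℝ} {e : E3} (hc : IsPacking c r)
    (he : ‖e‖ = 1) (G : SimpleGraph ι)
    (hG : ∀ i j, G.Adj i j → (contactGraph c r).Adj i j ∧ |inner ℝ e (c j - c i)| ≤ s)
    (m : ℕ) (hm : 3 ≤ m) (h0 : 0 ≤ Real.cos (2 * Real.pi / m)) (hs3 : s ^ 2 ≤ 3 * r ^ 2)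
    (hκ : r ^ 2 < Real.cos (2 * Real.pi / m) ^ 2 * (4 * r ^ 2 - s ^ 2)) : G.Colorable m := by
  have hr := hc.1
  have hr2 : 0 < r ^ 2 := by positivity
  obtain ⟨a, b, hab⟩ := exists_basis e he
  obtain ⟨k, rfl⟩ : ∃ k, m = k + 1 := ⟨m - 1, by omega⟩
  refine colorable_of_small G k fun t hne => ?_
  obtain ⟨v, hv, hmin⟩ := Finset.exists_min_image t (fun i => inner ℝ e (c i)) hne
  refine ⟨v, hv, fun n hn => ?_⟩
  have hre : ∀ w, (pos a b (c w) - pos a b (c v)).re = inner ℝ a (c w - c v) := fun w => by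
    rw [inner_sub_right]; rfl
  have him : ∀ w, (pos a b (c w) - pos a b (c v)).im = inner ℝ b (c w - c v) := fun w => by
    rw [inner_sub_right]; rfl
  have hu : ∀ w ∈ n, 0 ≤ inner ℝ e (c w - c v) ∧ inner ℝ e (c w - c v) ≤ s := by
    intro w hw
    constructor
    · rw [inner_sub_right]
      have := hmin w (hn w hw).1
      linarith
    · exact (le_abs_self _).trans (hG v w (hn w hw).2).2
  have hnorm : ∀ w ∈ n, ‖pos a b (c w) - pos a b (c v)‖ ^ 2 =
      4 * r ^ 2 - (inner ℝ e (c w - c v)) ^ 2 := by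
    intro w hw
    have h1 := dist_adj hc (hG v w (hn w hw).2).1
    rw [hab (c w - c v)] at h1
    rw [← Complex.normSq_eq_norm_sq, Complex.normSq_apply, hre, him]
    linarith
  have hcard := card_lt n (fun w => pos a b (c w) - pos a b (c v)) (k + 1) hm ?_ ?_
  · omega
  · intro w hw h
    have h1 := hnorm w hw
    obtain ⟨h2, h3⟩ := hu w hw
    rw [h, norm_zero] at h1
    nlinarith
  · intro w hw w' hw' hww
    have h1 := hnorm w hw
    have h2 := hnorm w' hw'
    have h3 := dist_ge hc hww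
    obtain ⟨p1, p2⟩ := hu w hw
    obtain ⟨p3, p4⟩ := hu w' hw'
    have h4 : c w' - c w = (c w' - c v) - (c w - c v) := by abel
    rw [h4, hab, inner_sub_right a (c w' - c v), inner_sub_right b (c w' - c v),
      inner_sub_right e (c w' - c v)] at h3
    have r1 := hre w
    have r2 := him w
    have r3 := hre w'
    have r4 := him w'
    obtain ⟨z, hz⟩ : ∃ z, z = pos a b (c w) - pos a b (c v) := ⟨_, rfl⟩
    obtain ⟨z', hz'⟩ : ∃ z, z = pos a b (c w') - pos a b (c v) := ⟨_, rfl⟩
    rw [← hz] at h1 r1 r2 ⊢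
    rw [← hz'] at h2 r3 r4 ⊢
    rw [← r1, ← r2, ← r3, ← r4] at h3
    obtain ⟨x, hx⟩ : ∃ u : ℝ, u = inner ℝ e (c w - c v) := ⟨_, rfl⟩
    obtain ⟨y, hy⟩ : ∃ u : ℝ, u = inner ℝ e (c w' - c v) := ⟨_, rfl⟩
    rw [← hx] at h1 p1 p2
    rw [← hy] at h2 p3 p4
    rw [← hx, ← hy] at h3
    have k1 := h1
    have k2 := h2
    rw [← Complex.normSq_eq_norm_sq, Complex.normSq_apply] at k1 k2
    have h5 : z.re * z'.re + z.im * z'.im ≤ 2 * r ^ 2 - x * y := by nlinarith
    obtain ⟨κ, hκ'⟩ : ∃ κ, κ = Real.cos (2 * Real.pi / ((k + 1 : ℕ) : ℝ)) := ⟨_, rfl⟩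
    rw [← hκ'] at h0 hκ ⊢
    -- the planar inequality
    have key : ∀ x y : ℝ, 0 ≤ x → x ≤ y → y ≤ s →
        (2 * r ^ 2 - x * y) ^ 2 < κ ^ 2 * ((4 * r ^ 2 - x ^ 2) * (4 * r ^ 2 - y ^ 2)) := by
      intro x y hx0 hxy hys
      have hy0 : 0 ≤ y := hx0.trans hxy
      have hy2 : y ^ 2 ≤ s ^ 2 := pow_le_pow_left₀ hy0 hys 2
      have hx2 : x ^ 2 ≤ s ^ 2 := pow_le_pow_left₀ hx0 (hxy.trans hys) 2
      have q1 : (2 * r ^ 2 - x * y) ^ 2 ≤ r ^ 2 * (4 * r ^ 2 - x ^ 2) := by
        have e1 : x * (r ^ 2 + y ^ 2) ≤ 4 * r ^ 2 * y := by nlinarith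
        have e2 := mul_le_mul_of_nonneg_left e1 hx0
        nlinarith
      have q2 : 0 < 4 * r ^ 2 - x ^ 2 := by linarith
      have q3 : r ^ 2 < κ ^ 2 * (4 * r ^ 2 - y ^ 2) := by
        have := mul_le_mul_of_nonneg_left hy2 (sq_nonneg κ)
        linarith
      have q4 := mul_lt_mul_of_pos_right q3 q2
      linarith
    have h6 : (2 * r ^ 2 - x * y) ^ 2 < κ ^ 2 * ((4 * r ^ 2 - x ^ 2) * (4 * r ^ 2 - y ^ 2)) := by
      rcases le_total x y with h | h
      · exact key x y p1 h p4
      · have := key y x p3 h p2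
        linarith [mul_comm x y]
    have h7 : (2 * r ^ 2 - x * y) ^ 2 < (κ * (‖z‖ * ‖z'‖)) ^ 2 := by
      rw [mul_pow, mul_pow, h1, h2]
      exact h6
    have h8 := abs_lt_of_sq_lt_sq h7 (mul_nonneg h0 (mul_nonneg (norm_nonneg _) (norm_nonneg _)))
    have h9 := le_abs_self (2 * r ^ 2 - x * y)
    linarith

theorem result (ι : Type) [Finite ι] (c : ι → E3) (r s : ℝ) (e : E3) (hc : IsPacking c r)
    (he : ‖e‖ = 1) (G : SimpleGraph ι)
    (hG : ∀ i j, G.Adj i j → (contactGraph c r).Adj i j ∧ |inner ℝ e (c j - c i)| ≤ s) :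
    (s ^ 2 < 2 * r ^ 2 → G.Colorable 8) ∧
    (r ^ 2 < Real.cos (2 * Real.pi / 7) ^ 2 * (4 * r ^ 2 - s ^ 2) → G.Colorable 7) := by
  have hr := hc.1
  have hr2 : 0 < r ^ 2 := by positivity
  have hpi := Real.pi_pos
  constructor
  · intro h
    have e1 : Real.cos (2 * Real.pi / ((8 : ℕ) : ℝ)) = √2 / 2 := by
      rw [← Real.cos_pi_div_four]
      congr 1
      push_cast
      ring
    refine flat hc he G hG 8 (by norm_num) (by rw [e1]; positivity) (by linarith) ?_
    rw [e1, div_pow, Real.sq_sqrt (by norm_num)]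
    linarith
  · intro h
    have e0 : 0 ≤ Real.cos (2 * Real.pi / 7) :=
      Real.cos_nonneg_of_neg_pi_div_two_le_of_le (by linarith) (by linarith)
    have e1 := Real.cos_sq_le_one (2 * Real.pi / 7)
    have hs3 : s ^ 2 ≤ 3 * r ^ 2 := by
      by_contra hcon
      push Not at hcon
      have e2 : 4 * r ^ 2 - s ^ 2 < r ^ 2 := by linarith
      have e3 := mul_le_mul_of_nonneg_left e2.le (sq_nonneg (Real.cos (2 * Real.pi / 7)))
      nlinarith
    exact flat hc he G hG 7 (by norm_num) (by exact_mod_cast e0) hs3 (by exact_mod_cast h)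

end Pool.Agent.Results.MP_fada92_co.FlatContacts
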