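import Mathlib

/-!
MP_fada92_co, Q1, for layered packings. Let the centres of congruent balls of radius `r` lie in the
layers `v i + ℤ u + ℤ w`, `i ∈ ℤ`, where all these points have mutual distances at least `2 r` and
only consecutive layers touch. Then the contact graph is 4-colourable. Hexagonal layers give all
Barlow packings.

Proof: two points of a layer that touch differ by a vector outside of `2 Λ`, `Λ = ℤ u + ℤ w`. If some
nonzero class of `Λ / 2 Λ` has no vector of length `2 r`, every layer is 2-colourable by a linear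
form, and two disjoint pairs of colours alternate. Otherwise the contact vectors from a layer to
the next one miss a class modulo `2 Λ`: if they met all four classes, the parallelogram law would
show that four of them have all mutual distances `2 r`, and then half of `A₁ + A₂ - A₃ - A₀`
would be a vector of `Λ` of length `√2 r`. So `Λ / 2 Λ`, suitably shifted in every layer, colours.
-/

set_option autoImplicit false

namespace Pool.Agent.Results.MP_fada92_co.LatticeLayers

open Metric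

section

variable {E : Type*} [NormedAddCommGroup E] [InnerProductSpace ℝ E]

/-- Two contact vectors of a layer to the next one whose difference is in the class of a vector of
length `d` have distance at most `d`. -/
theorem close {u w δ : E} {d : ℝ} (hd : 0 < d)
    (hδ : ∀ m n : ℤ, d ≤ ‖δ + ((m : ℝ) • u + (n : ℝ) • w)‖) {m0 n0 m1 n1 p q : ℤ}
    (h0 : ‖δ + ((m0 : ℝ) • u + (n0 : ℝ) • w)‖ = d) (h1 : ‖δ + ((m1 : ℝ) • u + (n1 : ℝ) • w)‖ = d)
    (hpq : ‖(p : ℝ) • u + (q : ℝ) • w‖ = d) (hp : (2 : ℤ) ∣ m0 + m1 + p)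
    (hq : (2 : ℤ) ∣ n0 + n1 + q) :
    ‖((m1 - m0 : ℤ) : ℝ) • u + ((n1 - n0 : ℤ) : ℝ) • w‖ ≤ d := by
  obtain ⟨a, ha⟩ := hp
  obtain ⟨b, hb⟩ := hq
  obtain ⟨A, hA⟩ : ∃ A : E, A = δ + ((m0 : ℝ) • u + (n0 : ℝ) • w) := ⟨_, rfl⟩
  obtain ⟨B, hB⟩ : ∃ B : E, B = δ + ((m1 : ℝ) • u + (n1 : ℝ) • w) := ⟨_, rfl⟩
  obtain ⟨C, hC⟩ : ∃ C : E, C = (p : ℝ) • u + (q : ℝ) • w := ⟨_, rfl⟩
  rw [← hA] at h0
  rw [← hB] at h1
  rw [← hC] at hpq
  have hm : (m0 : ℝ) + m1 + p = 2 * a := by exact_mod_cast ha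
  have hn : (n0 : ℝ) + n1 + q = 2 * b := by exact_mod_cast hb
  have e1 : A + B + C = (2 : ℝ) • (δ + ((a : ℝ) • u + (b : ℝ) • w)) := by
    have hp' : (p : ℝ) = 2 * a - m0 - m1 := by linarith
    have hq' : (q : ℝ) = 2 * b - n0 - n1 := by linarith
    rw [hA, hB, hC, hp', hq']
    module
  have e2 : A + B - C = (2 : ℝ) • (δ + (((a - p : ℤ) : ℝ) • u + ((b - q : ℤ) : ℝ) • w)) := by
    have hp' : (p : ℝ) = 2 * a - m0 - m1 := by linarith
    have hq' : (q : ℝ) = 2 * b - n0 - n1 := by linarith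
    push_cast
    rw [hA, hB, hC, hp', hq']
    module
  have n1' : 2 * d ≤ ‖A + B + C‖ := by
    rw [e1, norm_smul, Real.norm_ofNat]
    exact mul_le_mul_of_nonneg_left (hδ a b) (by norm_num)
  have n2' : 2 * d ≤ ‖A + B - C‖ := by
    rw [e2, norm_smul, Real.norm_ofNat]
    exact mul_le_mul_of_nonneg_left (hδ (a - p) (b - q)) (by norm_num)
  have p1 := parallelogram_law_with_norm ℝ (A + B) C
  have p2 := parallelogram_law_with_norm ℝ A B
  have e3 : ((m1 - m0 : ℤ) : ℝ) • u + ((n1 - n0 : ℤ) : ℝ) • w = -(A - B) := by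
    push_cast
    rw [hA, hB]
    module
  rw [e3, norm_neg]
  rw [hpq] at p1
  rw [h0, h1] at p2
  have q1 : (2 * d) * (2 * d) ≤ ‖A + B + C‖ * ‖A + B + C‖ :=
    mul_self_le_mul_self (by positivity) n1'
  have q2 : (2 * d) * (2 * d) ≤ ‖A + B - C‖ * ‖A + B - C‖ :=
    mul_self_le_mul_self (by positivity) n2'
  have q3 : ‖A - B‖ * ‖A - B‖ ≤ d * d := by linarith
  by_contra hc
  push Not at hc
  nlinarith

/-- The contact vectors of a layer to the next one do not meet all classes, if every nonzero class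
has a vector of length `d`. -/
theorem missing {u w δ : E} {d : ℝ} (hd : 0 < d)
    (hΛ : ∀ m n : ℤ, (m ≠ 0 ∨ n ≠ 0) → d ≤ ‖(m : ℝ) • u + (n : ℝ) • w‖)
    (hδ : ∀ m n : ℤ, d ≤ ‖δ + ((m : ℝ) • u + (n : ℝ) • w)‖)
    (hall : ∀ k : ZMod 2 × ZMod 2, k ≠ 0 → ∃ p q : ℤ, ‖(p : ℝ) • u + (q : ℝ) • w‖ = d ∧
      ((p : ZMod 2), (q : ZMod 2)) = k) :
    ∃ k : ZMod 2 × ZMod 2, ∀ m n : ℤ, ‖δ + ((m : ℝ) • u + (n : ℝ) • w)‖ = d →
      ((m : ZMod 2), (n : ZMod 2)) ≠ k := by
  by_contra hcon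
  push Not at hcon
  choose f g hfg hk using hcon
  have key : ∀ k l : ZMod 2 × ZMod 2, k ≠ l →
      ‖(((f l - f k : ℤ) : ℝ) • u + ((g l - g k : ℤ) : ℝ) • w)‖ = d := by
    intro k l hkl
    have hdec : ∀ k l : ZMod 2 × ZMod 2, k ≠ l → k + l ≠ 0 := by decide
    obtain ⟨p, q, hpq, hc⟩ := hall (k + l) (hdec k l hkl)
    have hk1 := congrArg Prod.fst (hk k)
    have hk2 := congrArg Prod.snd (hk k)
    have hl1 := congrArg Prod.fst (hk l)
    have hl2 := congrArg Prod.snd (hk l)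
    have hc1 := congrArg Prod.fst hc
    have hc2 := congrArg Prod.snd hc
    simp only [Prod.fst_add, Prod.snd_add] at hk1 hk2 hl1 hl2 hc1 hc2
    have d1 : (2 : ℤ) ∣ f k + f l + p := by
      have h3 : ((f k + f l + p : ℤ) : ZMod 2) = 0 := by
        push_cast
        rw [hk1, hl1, hc1]
        generalize k.1 = x
        generalize l.1 = y
        revert x y
        decide
      exact_mod_cast (ZMod.intCast_zmod_eq_zero_iff_dvd _ 2).1 h3
    have d2 : (2 : ℤ) ∣ g k + g l + q := by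
      have h3 : ((g k + g l + q : ℤ) : ZMod 2) = 0 := by
        push_cast
        rw [hk2, hl2, hc2]
        generalize k.2 = x
        generalize l.2 = y
        revert x y
        decide
      exact_mod_cast (ZMod.intCast_zmod_eq_zero_iff_dvd _ 2).1 h3
    refine le_antisymm (close hd hδ (hfg k) (hfg l) hpq d1 d2) (hΛ _ _ ?_)
    by_contra hz
    push Not at hz
    apply hkl
    rw [← hk k, ← hk l]
    have z1 : f l = f k := by linarith [hz.1]
    have z2 : g l = g k := by linarith [hz.2]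
    rw [z1, z2]
  obtain ⟨A, hA⟩ : ∃ A : ZMod 2 × ZMod 2 → E,
    A = fun k => δ + ((f k : ℝ) • u + (g k : ℝ) • w) := ⟨_, rfl⟩
  have hAn : ∀ k, ‖A k‖ = d := fun k => by rw [hA]; exact hfg k
  have hAd : ∀ k l, k ≠ l → ‖A l - A k‖ = d := by
    intro k l hkl
    rw [← key k l hkl, hA]
    congr 1
    push_cast
    module
  have hin : ∀ k l, k ≠ l → inner ℝ (A k) (A l) = d ^ 2 / 2 := by
    intro k l hkl
    have h1 := norm_sub_sq_real (A l) (A k)
    rw [hAd k l hkl, hAn, hAn, real_inner_comm] at h1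
    linarith
  obtain ⟨B, hB⟩ : ∃ B : E, B = A (1, 0) + A (0, 1) - A (1, 1) - A (0, 0) := ⟨_, rfl⟩
  have hBn : ‖B‖ ^ 2 = 2 * d ^ 2 := by
    have h00 : (1, 0) ≠ ((0, 1) : ZMod 2 × ZMod 2) := by decide
    have h01 : (1, 0) ≠ ((1, 1) : ZMod 2 × ZMod 2) := by decide
    have h02 : (1, 0) ≠ ((0, 0) : ZMod 2 × ZMod 2) := by decide
    have h03 : (0, 1) ≠ ((1, 1) : ZMod 2 × ZMod 2) := by decide
    have h04 : (0, 1) ≠ ((0, 0) : ZMod 2 × ZMod 2) := by decide
    have h05 : (1, 1) ≠ ((0, 0) : ZMod 2 × ZMod 2) := by decide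
    have hs : ∀ k, inner ℝ (A k) (A k) = d ^ 2 := fun k => by
      rw [real_inner_self_eq_norm_sq, hAn]
    rw [← real_inner_self_eq_norm_sq, hB]
    simp only [inner_add_left, inner_add_right, inner_sub_left, inner_sub_right, hs]
    rw [hin _ _ h00, hin _ _ h01, hin _ _ h02, hin _ _ h03, hin _ _ h04, hin _ _ h05,
      hin _ _ h00.symm, hin _ _ h01.symm, hin _ _ h02.symm, hin _ _ h03.symm, hin _ _ h04.symm,
      hin _ _ h05.symm]
    ring
  have hpar : ∀ F : ZMod 2 × ZMod 2 → ℤ,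
      (((F (1, 0) + F (0, 1) - F (1, 1) - F (0, 0) : ℤ) : ZMod 2) = 0) →
      ∃ a : ℤ, F (1, 0) + F (0, 1) - F (1, 1) - F (0, 0) = 2 * a := by
    intro F hF
    have := (ZMod.intCast_zmod_eq_zero_iff_dvd _ 2).1 hF
    exact_mod_cast this
  obtain ⟨a, ha⟩ := hpar f (by
    have e1 := congrArg Prod.fst (hk (1, 0))
    have e2 := congrArg Prod.fst (hk (0, 1))
    have e3 := congrArg Prod.fst (hk (1, 1))
    have e4 := congrArg Prod.fst (hk (0, 0))
    simp only at e1 e2 e3 e4
    push_cast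
    rw [e1, e2, e3, e4]
    decide)
  obtain ⟨b, hb⟩ := hpar g (by
    have e1 := congrArg Prod.snd (hk (1, 0))
    have e2 := congrArg Prod.snd (hk (0, 1))
    have e3 := congrArg Prod.snd (hk (1, 1))
    have e4 := congrArg Prod.snd (hk (0, 0))
    simp only at e1 e2 e3 e4
    push_cast
    rw [e1, e2, e3, e4]
    decide)
  have hB2 : B = (2 : ℝ) • ((a : ℝ) • u + (b : ℝ) • w) := by
    have ha' : (f (1, 0) : ℝ) + f (0, 1) - f (1, 1) - f (0, 0) = 2 * a := by exact_mod_cast ha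
    have hb' : (g (1, 0) : ℝ) + g (0, 1) - g (1, 1) - g (0, 0) = 2 * b := by exact_mod_cast hb
    have ha2 : (a : ℝ) = ((f (1, 0) : ℝ) + f (0, 1) - f (1, 1) - f (0, 0)) / 2 := by linarith
    have hb2 : (b : ℝ) = ((g (1, 0) : ℝ) + g (0, 1) - g (1, 1) - g (0, 0)) / 2 := by linarith
    rw [hB, hA, ha2, hb2]
    module
  rw [hB2, norm_smul, Real.norm_ofNat] at hBn
  by_cases hz : a ≠ 0 ∨ b ≠ 0
  · have h1 := hΛ a b hz
    nlinarith [mul_self_le_mul_self hd.le h1]
  · push Not at hz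
    rw [hz.1, hz.2] at hBn
    simp only [Int.cast_zero, zero_smul, add_zero, norm_zero, mul_zero] at hBn
    nlinarith [mul_pos hd hd]

theorem exists_sum {A : Type*} [AddCommGroup A] (k : ℤ → A) :
    ∃ s : ℤ → A, ∀ i, s (i + 1) = s i + k i := by
  refine ⟨fun i => ∑ j ∈ Finset.Ico 0 i, k j - ∑ j ∈ Finset.Ico i 0, k j, fun i => ?_⟩
  beta_reduce
  rcases le_or_gt 0 i with hi | hi
  · have e1 : Finset.Ico 0 (i + 1) = insert i (Finset.Ico 0 i) := by
      ext j
      rw [Finset.mem_insert, Finset.mem_Ico, Finset.mem_Ico]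
      omega
    have e2 : Finset.Ico i 0 = ∅ := Finset.Ico_eq_empty (by omega)
    have e3 : Finset.Ico (i + 1) 0 = ∅ := Finset.Ico_eq_empty (by omega)
    rw [e1, e2, e3, Finset.sum_insert (by rw [Finset.mem_Ico]; omega)]
    simp only [Finset.sum_empty, sub_zero]
    exact add_comm _ _
  · have e1 : Finset.Ico i 0 = insert i (Finset.Ico (i + 1) 0) := by
      ext j
      rw [Finset.mem_insert, Finset.mem_Ico, Finset.mem_Ico]
      omega
    have e2 : Finset.Ico 0 i = ∅ := Finset.Ico_eq_empty (by omega)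
    have e3 : Finset.Ico 0 (i + 1) = ∅ := Finset.Ico_eq_empty (by omega)
    rw [e1, e2, e3, Finset.sum_insert (by rw [Finset.mem_Ico]; omega)]
    simp only [Finset.sum_empty]
    abel

/-- the colouring of all the points of the layers -/
theorem colour {u w : E} {v : ℤ → E} {d : ℝ} (hd : 0 < d)
    (hΛ : ∀ m n : ℤ, (m ≠ 0 ∨ n ≠ 0) → d ≤ ‖(m : ℝ) • u + (n : ℝ) • w‖)
    (hδ : ∀ i m n : ℤ, d ≤ ‖v (i + 1) - v i + ((m : ℝ) • u + (n : ℝ) • w)‖) :
    ∃ c : ℤ → ℤ → ℤ → ZMod 2 × ZMod 2,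
      (∀ i m n p q : ℤ, ‖(p : ℝ) • u + (q : ℝ) • w‖ = d → c i m n ≠ c i (m + p) (n + q)) ∧
      ∀ i m n p q : ℤ, ‖v (i + 1) - v i + ((p : ℝ) • u + (q : ℝ) • w)‖ = d →
        c i m n ≠ c (i + 1) (m + p) (n + q) := by
  have hzero : ∀ p q : ℤ, ‖(p : ℝ) • u + (q : ℝ) • w‖ = d →
      ((p : ZMod 2), (q : ZMod 2)) ≠ (0, 0) := by
    intro p q hpq h
    have h1 : (p : ZMod 2) = 0 := congrArg Prod.fst h
    have h2 : (q : ZMod 2) = 0 := congrArg Prod.snd h
    obtain ⟨a, ha⟩ := (ZMod.intCast_zmod_eq_zero_iff_dvd _ 2).1 h1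
    obtain ⟨b, hb⟩ := (ZMod.intCast_zmod_eq_zero_iff_dvd _ 2).1 h2
    have ha' : (p : ℝ) = 2 * a := by exact_mod_cast ha
    have hb' : (q : ℝ) = 2 * b := by exact_mod_cast hb
    have e1 : (p : ℝ) • u + (q : ℝ) • w = (2 : ℝ) • ((a : ℝ) • u + (b : ℝ) • w) := by
      rw [ha', hb']
      module
    rw [e1, norm_smul, Real.norm_ofNat] at hpq
    by_cases hz : a ≠ 0 ∨ b ≠ 0
    · have := hΛ a b hz
      linarith
    · push Not at hz
      rw [hz.1, hz.2] at hpq
      simp only [Int.cast_zero, zero_smul, add_zero, norm_zero, mul_zero] at hpq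
      exact hd.ne hpq
  by_cases hall : ∀ k : ZMod 2 × ZMod 2, k ≠ 0 → ∃ p q : ℤ, ‖(p : ℝ) • u + (q : ℝ) • w‖ = d ∧
      ((p : ZMod 2), (q : ZMod 2)) = k
  · choose k hk using fun i : ℤ => missing hd hΛ (hδ i) hall
    obtain ⟨s, hs⟩ := exists_sum k
    refine ⟨fun i m n => ((m : ZMod 2), (n : ZMod 2)) + s i, ?_, ?_⟩
    · intro i m n p q hpq h
      apply hzero p q hpq
      have h1 := add_right_cancel h
      have h2 := congrArg Prod.fst h1
      have h3 := congrArg Prod.snd h1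
      push_cast at h2 h3
      rw [left_eq_add.1 h2, left_eq_add.1 h3]
    · intro i m n p q hpq h
      apply hk i p q hpq
      simp only at h
      rw [hs, add_comm (s i) (k i), ← add_assoc] at h
      have h1 := add_right_cancel h
      have h2 := congrArg Prod.fst h1
      have h3 := congrArg Prod.snd h1
      simp only [Prod.fst_add, Prod.snd_add] at h2 h3
      push_cast at h2 h3
      have hdec : ∀ a b c : ZMod 2, a = a + b + c → b = c := by decide
      exact Prod.ext (hdec _ _ _ h2) (hdec _ _ _ h3)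
  · push Not at hall
    obtain ⟨k, hk0, hk⟩ := hall
    refine ⟨fun i m n => ((i : ZMod 2), k.2 * (m : ZMod 2) + k.1 * (n : ZMod 2)), ?_, ?_⟩
    · intro i m n p q hpq h
      have h2 := congrArg Prod.snd h
      simp only at h2
      push_cast at h2
      have hdec : ∀ k : ZMod 2 × ZMod 2, k ≠ 0 → ∀ a b x y : ZMod 2,
          k.2 * a + k.1 * b = k.2 * (a + x) + k.1 * (b + y) → (x, y) = (0, 0) ∨ (x, y) = k := by
        decide
      rcases hdec k hk0 _ _ _ _ h2 with h3 | h3
      · exact hzero p q hpq h3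
      · exact hk p q hpq h3
    · intro i m n p q _ h
      have h2 := congrArg Prod.fst h
      simp only at h2
      push_cast at h2
      have hdec : ∀ a : ZMod 2, a ≠ a + 1 := by decide
      exact hdec _ h2

end

/-- Let `Λ = ℤ u + ℤ w` be a planar lattice of minimal distance at least `2 r`, and let the layers
`v i + Λ`, `i ∈ ℤ`, have mutual distances at least `2 r`, and more than `2 r` if they are not
consecutive. Then every packing of balls of radius `r` with centres in these layers has a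
4-colourable contact graph. -/
theorem result (r : ℝ) (hr : 0 < r) (u w : EuclideanSpace ℝ (Fin 3))
    (v : ℤ → EuclideanSpace ℝ (Fin 3))
    (hlat : ∀ m n : ℤ, (m ≠ 0 ∨ n ≠ 0) → 2 * r ≤ ‖(m : ℝ) • u + (n : ℝ) • w‖)
    (hpack : ∀ i m n : ℤ, 2 * r ≤ ‖v (i + 1) - v i + ((m : ℝ) • u + (n : ℝ) • w)‖)
    (hfar : ∀ i j m n : ℤ, i + 2 ≤ j → 2 * r < ‖v j - v i + ((m : ℝ) • u + (n : ℝ) • w)‖)
    (ι : Type) (x : ι → EuclideanSpace ℝ (Fin 3))
    (hx : ∀ a, ∃ i m n : ℤ, x a = v i + ((m : ℝ) • u + (n : ℝ) • w))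
    (hdisj : ∀ a b, a ≠ b → Disjoint (ball (x a) r) (ball (x b) r))
    (G : SimpleGraph ι)
    (hG : ∀ a b, G.Adj a b ↔ a ≠ b ∧ (closedBall (x a) r ∩ closedBall (x b) r).Nonempty) :
    G.Colorable 4 := by
  obtain ⟨c, hc1, hc2⟩ := colour (u := u) (w := w) (v := v) (d := 2 * r) (by positivity) hlat hpack
  choose i m n hx using hx
  have key : ∀ a b, G.Adj a b → i a ≤ i b → c (i a) (m a) (n a) ≠ c (i b) (m b) (n b) := by
    intro a b hab hle
    obtain ⟨hne, z, hz1, hz2⟩ := (hG a b).1 hab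
    rw [mem_closedBall] at hz1 hz2
    have hd1 : ‖x b - x a‖ ≤ 2 * r := by
      rw [← dist_eq_norm]
      have h1 := dist_triangle_left (x b) (x a) z
      linarith
    have e1 : x b - x a = v (i b) - v (i a) +
        (((m b - m a : ℤ) : ℝ) • u + ((n b - n a : ℤ) : ℝ) • w) := by
      rw [hx a, hx b]
      push_cast
      module
    rcases eq_or_lt_of_le hle with h | h
    · rw [← h, sub_self, zero_add] at e1
      have hne2 : m b - m a ≠ 0 ∨ n b - n a ≠ 0 := by
        by_contra hcon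
        push Not at hcon
        rw [hcon.1, hcon.2] at e1
        simp only [Int.cast_zero, zero_smul, add_zero] at e1
        have h2 : x b = x a := sub_eq_zero.1 e1
        have h3 := hdisj a b hne
        rw [h2] at h3
        exact Set.disjoint_left.1 h3 (mem_ball_self hr) (mem_ball_self hr)
      have h2 := hc1 (i a) (m a) (n a) (m b - m a) (n b - n a)
        (le_antisymm (by rw [← e1]; exact hd1) (hlat _ _ hne2))
      rw [← h]
      rwa [add_sub_cancel, add_sub_cancel] at h2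
    · by_cases h3 : i b = i a + 1
      · rw [h3] at e1
        have h2 := hc2 (i a) (m a) (n a) (m b - m a) (n b - n a)
          (le_antisymm (by rw [← e1]; exact hd1) (hpack _ _ _))
        rw [h3]
        rwa [add_sub_cancel, add_sub_cancel] at h2
      · have h4 := hfar (i a) (i b) (m b - m a) (n b - n a) (by omega)
        rw [← e1] at h4
        exact absurd hd1 (not_le.2 h4)
  have hcol : G.Coloring (ZMod 2 × ZMod 2) := SimpleGraph.Coloring.mk
    (fun a => c (i a) (m a) (n a)) (by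
      intro a b hab
      rcases le_total (i a) (i b) with h | h
      · exact key a b hab h
      · exact (key b a hab.symm h).symm)
  have := hcol.colorable
  rwa [show Fintype.card (ZMod 2 × ZMod 2) = 4 from rfl] at this

end Pool.Agent.Results.MP_fada92_co.LatticeLayers
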