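import Pool.Agent.Results.MP_fada92_co.FlatContacts

/-!
MP_fada92_co, Q1, for layered packings: the centres lie in parallel planes at distances of more than
`√2 r`. The lexicographically first ball of the lowest layer touches at most three balls of its own
layer, and at most three balls of the next layer, since their projections form obtuse angles (at most
two, if the layers have distances of more than `√(8/3) r`); so the contact graph can be coloured
greedily.
-/

set_option autoImplicit false

namespace Pool.Agent.Results.MP_fada92_co.LayeredPackings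

open Metric Pool.Agent.Results.MP_fada92_co.ThinSlabs Pool.Agent.Results.MP_fada92_co.FlatContacts

/-- The lexicographically first ball of the lowest layer. -/
theorem layers {ι : Type} [Finite ι] {c : ι → E3} {r q : ℝ} {e : E3} (hc : IsPacking c r)
    (he : ‖e‖ = 1) (hq : 2 * r ^ 2 ≤ q)
    (hl : ∀ i j, inner ℝ e (c j - c i) = 0 ∨ q < (inner ℝ e (c j - c i)) ^ 2)
    (m : ℕ) (hm : 3 ≤ m) (hκ : ∀ d : ℝ, 0 < d → d < 4 * r ^ 2 - q →
      d - 2 * r ^ 2 < Real.cos (2 * Real.pi / m) * d) :
    (contactGraph c r).Colorable (m + 3) := by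
  classical
  have hr := hc.1
  have hr2 : 0 < r ^ 2 := by positivity
  obtain ⟨a, b, hab⟩ := exists_basis e he
  refine colorable_of_small (contactGraph c r) (m + 2) fun t hne => ?_
  obtain ⟨v, hv, hmin⟩ := Finset.exists_min_image t
    (fun i => toLex (inner ℝ e (c i), toLex (inner ℝ a (c i), inner ℝ b (c i)))) hne
  refine ⟨v, hv, fun n hn => ?_⟩
  have hre : ∀ w, (pos a b (c w) - pos a b (c v)).re = inner ℝ a (c w - c v) := fun w => by
    rw [inner_sub_right]; rfl
  have him : ∀ w, (pos a b (c w) - pos a b (c v)).im = inner ℝ b (c w - c v) := fun w => by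
    rw [inner_sub_right]; rfl
  have hu0 : ∀ w ∈ n, 0 ≤ inner ℝ e (c w - c v) := by
    intro w hw
    have h1 := hmin w (hn w hw).1
    rw [Prod.Lex.toLex_le_toLex] at h1
    rw [inner_sub_right]
    rcases h1 with h1 | ⟨h1, -⟩
    · linarith
    · have : inner ℝ e (c v) = inner ℝ e (c w) := h1
      linarith
  have hnorm : ∀ w ∈ n, ‖pos a b (c w) - pos a b (c v)‖ ^ 2 =
      4 * r ^ 2 - (inner ℝ e (c w - c v)) ^ 2 := by
    intro w hw
    have h1 := dist_adj hc (hn w hw).2
    rw [hab (c w - c v)] at h1
    rw [← Complex.normSq_eq_norm_sq, Complex.normSq_apply, hre, him]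
    linarith
  -- two neighbours of the same height
  have hdot : ∀ w ∈ n, ∀ w' ∈ n, w ≠ w' → inner ℝ e (c w - c v) = inner ℝ e (c w' - c v) →
      (pos a b (c w) - pos a b (c v)).re * (pos a b (c w') - pos a b (c v)).re +
        (pos a b (c w) - pos a b (c v)).im * (pos a b (c w') - pos a b (c v)).im ≤
      2 * r ^ 2 - (inner ℝ e (c w - c v)) ^ 2 := by
    intro w hw w' hw' hww heq
    have h1 := hnorm w hw
    have h2 := hnorm w' hw'
    have h3 := dist_ge hc hww
    have h4 : c w' - c w = (c w' - c v) - (c w - c v) := by abel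
    rw [h4, hab, inner_sub_right a (c w' - c v), inner_sub_right b (c w' - c v),
      inner_sub_right e (c w' - c v), ← hre, ← hre, ← him, ← him, ← heq] at h3
    rw [← heq] at h2
    rw [← Complex.normSq_eq_norm_sq, Complex.normSq_apply] at h1 h2
    nlinarith
  have hsplit := Finset.card_filter_add_card_filter_not (s := n)
    (fun w => inner ℝ e (c w - c v) = 0)
  -- the own layer
  have c1 : (n.filter fun w => inner ℝ e (c w - c v) = 0).card ≤ 3 := by
    refine card_le _ (fun w => pos a b (c w) - pos a b (c v)) 3 (by norm_num) ?_ ?_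
    · intro w hw
      obtain ⟨hw, hw0⟩ := Finset.mem_filter.1 hw
      have h1 := hmin w (hn w hw).1
      have h2 := hnorm w hw
      rw [hw0, ← Complex.normSq_eq_norm_sq, Complex.normSq_apply] at h2
      rw [inner_sub_right] at hw0
      rw [Prod.Lex.toLex_le_toLex] at h1
      rcases h1 with h1 | ⟨-, h1⟩
      · exfalso
        have : inner ℝ e (c v) < inner ℝ e (c w) := h1
        linarith
      · rw [Prod.Lex.toLex_le_toLex] at h1
        rw [hre, him] at h2 ⊢
        rw [inner_sub_right, inner_sub_right] at h2 ⊢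
        rcases h1 with h1 | ⟨h1, h1'⟩
        · left
          have : inner ℝ a (c v) < inner ℝ a (c w) := h1
          linarith
        · right
          have h3 : inner ℝ a (c v) = inner ℝ a (c w) := h1
          refine ⟨by linarith, ?_⟩
          have h4 : inner ℝ b (c v) ≤ inner ℝ b (c w) := h1'
          rcases h4.lt_or_eq with h4 | h4
          · linarith
          · exfalso
            rw [h3, h4] at h2
            nlinarith
    · intro w hw w' hw' hww
      obtain ⟨hw, hw0⟩ := Finset.mem_filter.1 hw
      obtain ⟨hw', hw0'⟩ := Finset.mem_filter.1 hw'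
      have h1 := hdot w hw w' hw' hww (hw0.trans hw0'.symm)
      have h2 := hnorm w hw
      have h3 := hnorm w' hw'
      rw [hw0] at h1 h2
      rw [hw0'] at h3
      have h4 : ‖pos a b (c w) - pos a b (c v)‖ = 2 * r := by
        rw [← Real.sqrt_sq (norm_nonneg _), h2, ← Real.sqrt_sq (show 0 ≤ 2 * r by linarith)]
        congr 1
        ring
      have h5 : ‖pos a b (c w') - pos a b (c v)‖ = 2 * r := by
        rw [← Real.sqrt_sq (norm_nonneg _), h3, ← Real.sqrt_sq (show 0 ≤ 2 * r by linarith)]
        congr 1
        ring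
      have h6 : Real.cos (Real.pi / ((3 : ℕ) : ℝ)) = 1 / 2 := by
        push_cast
        exact Real.cos_pi_div_three
      rw [h6]
      simp only [h4, h5]
      linarith
  -- the next layer
  have c2 : (n.filter fun w => ¬ inner ℝ e (c w - c v) = 0).card + 1 ≤ m := by
    have hup : ∀ w ∈ n.filter fun w => ¬ inner ℝ e (c w - c v) = 0,
        q < (inner ℝ e (c w - c v)) ^ 2 ∧ (inner ℝ e (c w - c v)) ^ 2 ≤ 4 * r ^ 2 := by
      intro w hw
      obtain ⟨hw, hw0⟩ := Finset.mem_filter.1 hw
      refine ⟨(hl v w).resolve_left hw0, ?_⟩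
      have := hnorm w hw
      nlinarith [sq_nonneg ‖pos a b (c w) - pos a b (c v)‖]
    have hsame : ∀ w ∈ n.filter fun w => ¬ inner ℝ e (c w - c v) = 0,
        ∀ w' ∈ n.filter fun w => ¬ inner ℝ e (c w - c v) = 0,
        inner ℝ e (c w - c v) = inner ℝ e (c w' - c v) := by
      intro w hw w' hw'
      obtain ⟨k1, k2⟩ := hup w hw
      obtain ⟨k3, k4⟩ := hup w' hw'
      have k5 := hu0 w (Finset.mem_filter.1 hw).1
      have k6 := hu0 w' (Finset.mem_filter.1 hw').1
      have h4 : inner ℝ e (c w' - c w) = inner ℝ e (c w' - c v) - inner ℝ e (c w - c v) := by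
        rw [← inner_sub_right]
        congr 1
        abel
      rcases hl w w' with h | h
      · linarith
      · exfalso
        rw [h4] at h
        obtain ⟨x, hx⟩ : ∃ x, x = inner ℝ e (c w - c v) := ⟨_, rfl⟩
        obtain ⟨y, hy⟩ : ∃ y, y = inner ℝ e (c w' - c v) := ⟨_, rfl⟩
        rw [← hx] at k1 k2 k5 h
        rw [← hy] at k3 k4 k6 h
        have hxy : 2 * r ^ 2 ≤ x * y := by
          have h5 : (2 * r ^ 2) ^ 2 ≤ (x * y) ^ 2 := by
            rw [mul_pow]
            have := mul_le_mul (hq.trans k1.le) (hq.trans k3.le) (by positivity) (sq_nonneg x)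
            nlinarith
          exact (abs_le_of_sq_le_sq h5 (mul_nonneg k5 k6) |> le_trans (le_abs_self _))
        nlinarith
    by_cases hcard : (n.filter fun w => ¬ inner ℝ e (c w - c v) = 0).card ≤ 1
    · omega
    · push Not at hcard
      have hpos : ∀ w ∈ n.filter fun w => ¬ inner ℝ e (c w - c v) = 0,
          (inner ℝ e (c w - c v)) ^ 2 < 4 * r ^ 2 := by
        intro w hw
        obtain ⟨w', hw', hne'⟩ := Finset.exists_mem_ne hcard w
        have h1 := hdot w (Finset.mem_filter.1 hw).1 w' (Finset.mem_filter.1 hw').1 hne'.symm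
          (hsame w hw w' hw')
        refine lt_of_le_of_ne (hup w hw).2 fun h => ?_
        have h2 := hnorm w (Finset.mem_filter.1 hw).1
        rw [h, sub_self] at h2
        have h3 : pos a b (c w) - pos a b (c v) = 0 := by
          rw [← norm_eq_zero]
          exact pow_eq_zero_iff (two_ne_zero) |>.1 h2
        rw [h3, h] at h1
        simp at h1
        nlinarith
      refine card_lt _ (fun w => pos a b (c w) - pos a b (c v)) m hm ?_ ?_
      · intro w hw h0
        have h2 := hnorm w (Finset.mem_filter.1 hw).1
        rw [h0, norm_zero] at h2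
        have := hpos w hw
        linarith
      · intro w hw w' hw' hww
        have h1 := hdot w (Finset.mem_filter.1 hw).1 w' (Finset.mem_filter.1 hw').1 hww
          (hsame w hw w' hw')
        have h2 := hnorm w (Finset.mem_filter.1 hw).1
        have h3 := hnorm w' (Finset.mem_filter.1 hw').1
        rw [← hsame w hw w' hw'] at h3
        have h4 : ‖pos a b (c w) - pos a b (c v)‖ = ‖pos a b (c w') - pos a b (c v)‖ := by
          rw [← Real.sqrt_sq (norm_nonneg (pos a b (c w) - pos a b (c v))), h2, ← h3,
            Real.sqrt_sq (norm_nonneg _)]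
        have h5 := hκ (4 * r ^ 2 - (inner ℝ e (c w - c v)) ^ 2) (by linarith [hpos w hw])
          (by linarith [(hup w hw).1])
        rw [← h4, ← pow_two, h2]
        linarith
  omega

theorem result (ι : Type) [Finite ι] (c : ι → E3) (r : ℝ) (e : E3) (hc : IsPacking c r)
    (he : ‖e‖ = 1) :
    ((∀ i j, inner ℝ e (c j - c i) = 0 ∨ 2 * r ^ 2 < (inner ℝ e (c j - c i)) ^ 2) →
      (contactGraph c r).Colorable 7) ∧
    ((∀ i j, inner ℝ e (c j - c i) = 0 ∨ 8 * r ^ 2 < 3 * (inner ℝ e (c j - c i)) ^ 2) →
      (contactGraph c r).Colorable 6) := by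
  have hr := hc.1
  have hr2 : 0 < r ^ 2 := by positivity
  constructor
  · intro h
    refine layers hc he le_rfl h 4 (by norm_num) fun d hd hd' => ?_
    have e1 : Real.cos (2 * Real.pi / ((4 : ℕ) : ℝ)) = 0 := by
      rw [← Real.cos_pi_div_two]
      congr 1
      push_cast
      ring
    rw [e1]
    linarith
  · intro h
    refine layers hc he (q := 8 / 3 * r ^ 2) (by linarith) (fun i j => ?_) 3 (by norm_num)
      fun d hd hd' => ?_
    · rcases h i j with h | h
      · exact Or.inl h
      · exact Or.inr (by linarith)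
    · have e1 : Real.cos (2 * Real.pi / ((3 : ℕ) : ℝ)) = -(1 / 2) := by
        rw [← Real.cos_pi_div_three, ← Real.cos_pi_sub]
        congr 1
        push_cast
        ring
      rw [e1]
      linarith

end Pool.Agent.Results.MP_fada92_co.LayeredPackings
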