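import Pool.Agent.Lib_helper34.TSS.B
import Pool.Agent.Lib_helper34.TSS.C
import Pool.Agent.Lib_helper34.TSS.F

/-!
MP_fada92_co, Q1, for packings in a slab. Let the centres of congruent balls of radius `r` lie
between two parallel planes at distance `h`. Projected to the plane, two balls that touch a third
one are seen from it under an angle which is not much smaller than 60 degrees; so the ball whose
projected centre is lexicographically first touches few of the others, and the contact graph can be
coloured greedily. For `h < √2 r` the projection is a plane straight-line drawing of the contact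
graph. So if the first ball touches at most four others, Kempe's argument gives four colours: the
two chains that join its first and third, and its second and fourth neighbour, would have to cross;
this is proved with winding numbers of polygons. A slab of twice the thickness is cut into two.

Lower bounds: a ring of six rhombi (19 balls, coplanar centres) needs four colours. For every
`h > √2 r` a chain of an odd number of regular tetrahedra, each of which shares opposite edges with
its neighbours, together with one ball that touches the four balls of the first and of the last edge,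
fits into the slab and needs five colours: the two colours of consecutive edges are complementary.
-/

set_option autoImplicit false

namespace Pool.Agent.Results.MP_fada92_co.ThinSlabs

open Metric

/-! ### The result -/

theorem result :
    (∀ (ι : Type) [Finite ι] (c : ι → E3) (r h : ℝ) (e : E3), IsPacking c r → ‖e‖ = 1 →
      InSlab c e h →
        (h ^ 2 < 2 * r ^ 2 → StraightDrawing (contactGraph c r) fun i => proj e (c i)) ∧
        (h ^ 2 ≤ (24 * √2 - 32) * r ^ 2 → (contactGraph c r).Colorable 4) ∧
        (h ^ 2 ≤ (2 * √5 - 2) * r ^ 2 → (contactGraph c r).Colorable 6) ∧
        (3 * h ^ 2 ≤ 8 * r ^ 2 → (contactGraph c r).Colorable 7) ∧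
        (h ^ 2 ≤ 4 * (24 * √2 - 32) * r ^ 2 → (contactGraph c r).Colorable 8)) ∧
    ∀ r h : ℝ, 0 < r → 0 ≤ h →
      (∃ (ι : Type) (_ : Finite ι) (c : ι → E3) (e : E3), IsPacking c r ∧ ‖e‖ = 1 ∧
        InSlab c e h ∧ ¬ (contactGraph c r).Colorable 3) ∧
      (2 * r ^ 2 < h ^ 2 →
        ∃ (ι : Type) (_ : Finite ι) (c : ι → E3) (e : E3), IsPacking c r ∧ ‖e‖ = 1 ∧
          InSlab c e h ∧ ¬ (contactGraph c r).Colorable 4) := by
  refine ⟨fun ι _ c r h e hc he hs => upper hc he hs, fun r h hr hh0 => ⟨?_, fun hh => ?_⟩⟩
  · obtain ⟨c, e, h1, h2, h3, h4⟩ := four_needed r h hr hh0
    exact ⟨_, inferInstance, c, e, h1, h2, h3, h4⟩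
  · exact five_needed r h hr hh0 hh

end Pool.Agent.Results.MP_fada92_co.ThinSlabs
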